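import Pool.Agent.H593Z.Heis

set_option autoImplicit false

namespace Pool.Agent.Results.MP_2c2cb6_an.HeisenbergEmbeds

open H593Z.Sim

/-- In every dimension `d ≥ 1` some subshift has the discrete Heisenberg group (upper unitriangular
integer `3 × 3` matrices) as a group of automorphisms. -/
theorem result (d : ℕ) (hd : 1 ≤ d) :
    ∃ (k : ℕ) (X : Set ((Fin d → ℤ) → Fin k)), X.Nonempty ∧ IsClosed X ∧
      (∀ (u : Fin d → ℤ) (x : (Fin d → ℤ) → Fin k), x ∈ X ↔ (fun v => x (u + v)) ∈ X) ∧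
      ∃ ρ : {M : Matrix (Fin 3) (Fin 3) ℤ // (∀ i, M i i = 1) ∧ ∀ i j, j < i → M i j = 0} →
          Equiv.Perm X,
        Function.Injective ρ ∧
        (∀ M N P, P.1 = M.1 * N.1 → ρ P = ρ M * ρ N) ∧
        (∀ M, Continuous (ρ M) ∧ Continuous (ρ M).symm) ∧
        (∀ M (u : Fin d → ℤ) (p q : X), (q.1 = fun v => p.1 (u + v)) →
          (ρ M q).1 = fun v => (ρ M p).1 (u + v)) := by
  obtain ⟨k, F, -⟩ := Heis.exists_fam
  let i0 : Fin d := ⟨0, hd⟩
  let e : Fin d → ℤ := Pi.single i0 1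
  let π : (Fin d → ℤ) →+ ℤ := Pi.evalAddMonoidHom (fun _ => ℤ) i0
  have hπ : π e = 1 := by simp [π, e]
  refine ⟨k, F.X e, F.X_nonempty e π hπ, F.X_closed e, ?_,
    fun M => F.rho e ⟨M.1 0 1, M.1 1 2, M.1 0 2⟩, ?_, ?_, ?_, ?_⟩
  · intro u x
    refine ⟨fun hx => ?_, fun hx => ?_⟩
    · simpa only [add_comm] using F.shift_mem e hx u
    · simpa using F.shift_mem e hx (-u)
  · intro M N h
    have h1 := F.rho_inj e π hπ h
    have ha : M.1 0 1 = N.1 0 1 := congrArg Heis.a h1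
    have hb : M.1 1 2 = N.1 1 2 := congrArg Heis.b h1
    have hc : M.1 0 2 = N.1 0 2 := congrArg Heis.c h1
    apply Subtype.ext
    ext i j
    rcases lt_trichotomy j i with hij | hij | hij
    · rw [M.2.2 i j hij, N.2.2 i j hij]
    · rw [hij, M.2.1, N.2.1]
    · fin_cases i <;> fin_cases j <;> first | exact ha | exact hb | exact hc | simp at hij
  · intro M N P h
    refine (congrArg (F.rho e) ?_).trans
      ((F.rho e).map_mul ⟨M.1 0 1, M.1 1 2, M.1 0 2⟩ ⟨N.1 0 1, N.1 1 2, N.1 0 2⟩)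
    have m0 := M.2.1 0
    have m1 := M.2.1 1
    have n1 := N.2.1 1
    have n2 := N.2.1 2
    have m10 := M.2.2 1 0 (by decide)
    have n21 := N.2.2 2 1 (by decide)
    ext <;> simp [h, Matrix.mul_apply, Fin.sum_univ_three, m0, m1, n1, n2, m10, n21] <;> ring
  · intro M
    refine ⟨F.rho_cont e _, ?_⟩
    rw [← Equiv.Perm.inv_def, ← map_inv]
    exact F.rho_cont e _
  · intro M u p q h
    funext v
    rw [F.rho_val, F.rho_val, h, add_comm u v, ← F.a_shift]
    simp only [add_comm]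

end Pool.Agent.Results.MP_2c2cb6_an.HeisenbergEmbeds
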